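import Mathlib

namespace Pool.Agent.H.MP_0b691a_pr

open MeasureTheory Filter Topology Set Real
open scoped ENNReal

noncomputable def G (s x : ℝ) : ℝ := (max x 0) ^ (s - 1) / Gamma s

def Δ : ℕ → (ℝ → ℝ) → ℝ → ℝ
  | 0, f => f
  | n + 1, f => fun x => Δ n f x - Δ n f (x - 1)

def B (A : ℝ) (f : ℝ → ℝ) : Prop :=
  Continuous f ∧ (∀ x ≤ 0, f x = 0) ∧ ∀ x, |f x| ≤ A * exp (4 * x)

lemma B.A0 {A : ℝ} {f : ℝ → ℝ} (h : B A f) : 0 ≤ A := by simpa using (abs_nonneg _).trans (h.2.2 0)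

lemma BG {s : ℝ} (h : 1 < s) : B (4 ^ (1 - s)) (G s) := by
  have g := Gamma_pos_of_pos (show 0 < s by linarith)
  refine ⟨((continuous_id.max continuous_const).rpow_const fun _ => .inr (by linarith)).div_const _,
    fun x hx => by simp [G, hx, zero_rpow (sub_pos.2 h).ne'], fun x => ?_⟩
  rcases le_or_gt x 0 with hx | hx
  · simp only [G, max_eq_right hx, zero_rpow (sub_pos.2 h).ne', zero_div, abs_zero]; positivity
  rw [G, max_eq_left hx.le, abs_of_pos (by positivity), div_le_iff₀ g]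
  have i := GammaIntegral_convergent (show 0 < s by linarith)
  have k : (4 * x) ^ (s - 1) * exp (-(4 * x)) ≤ Gamma s := by
    rw [Gamma_eq_integral (by linarith), ← integral_exp_neg_Ioi, ← integral_const_mul]
    refine le_trans (setIntegral_mono_on ((integrableOn_exp_neg_Ioi _).const_mul _)
      (i.mono_set (Ioi_subset_Ioi (by positivity))) measurableSet_Ioi fun t ht => ?_)
      (setIntegral_mono_set i (ae_restrict_of_forall_mem measurableSet_Ioi fun t ht => ?_)
        (Ioi_subset_Ioi (by positivity)).eventuallyLE)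
    · rw [mul_comm]
      exact mul_le_mul_of_nonneg_left (rpow_le_rpow (by positivity) (le_of_lt ht) (by linarith)) (exp_pos _).le
    · have : 0 < t := ht
      simp only [Pi.zero_apply]; positivity
  calc x ^ (s - 1) = 4 ^ (1 - s) * exp (4 * x) * ((4 * x) ^ (s - 1) * exp (-(4 * x))) := by
        rw [mul_rpow (by norm_num) hx.le, exp_neg, show 1 - s = -(s - 1) by ring, rpow_neg (by norm_num)]
        field_simp
    _ ≤ _ := by gcongr

lemma B.Δ {A : ℝ} {f : ℝ → ℝ} (h : B A f) (n : ℕ) : B (2 ^ n * A) (Δ n f) := by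
  induction n with
  | zero => rw [pow_zero, one_mul]; exact h
  | succ n ih =>
    have := ih.1
    refine ⟨by unfold MP_0b691a_pr.Δ; fun_prop, fun x hx => ?_, fun x => ?_⟩
    · simp only [MP_0b691a_pr.Δ, ih.2.1 x hx, ih.2.1 (x - 1) (by linarith), sub_zero]
    · refine (abs_sub _ _).trans ((add_le_add (ih.2.2 x) (ih.2.2 _)).trans ?_)
      have := mul_le_mul_of_nonneg_left (exp_le_exp.2 (show 4 * (x - 1) ≤ 4 * x by linarith)) ih.A0
      rw [pow_succ]; linarith

lemma dG {s : ℝ} (h : 2 < s) (x : ℝ) : HasDerivAt (G s) (G (s - 1) x) x := by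
  have g := Gamma_pos_of_pos (show 0 < s - 1 by linarith)
  have e : Gamma s = (s - 1) * Gamma (s - 1) := by rw [← Gamma_add_one (by linarith), sub_add_cancel]
  have s1 : s - 1 ≠ 0 := by linarith
  have z : ∀ y ≤ 0, G s y = 0 := (BG (by linarith)).2.1
  have z' : ∀ y ≤ 0, G (s - 1) y = 0 := (BG (by linarith)).2.1
  have p : ∀ y, 0 ≤ y → HasDerivWithinAt (G s) (G (s - 1) y) (Ici 0) y := fun y hy => by
    have := ((hasDerivAt_rpow_const (x := y) (p := s - 1) (.inr (by linarith))).div_const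
      (Gamma s)).hasDerivWithinAt (s := Ici 0)
    refine (this.congr (fun t ht => by rw [G, max_eq_left ht]) (by rw [G, max_eq_left hy])).congr_deriv ?_
    rw [G, max_eq_left hy, e]; field_simp
  have n : ∀ y, y ≤ 0 → HasDerivWithinAt (G s) (G (s - 1) y) (Iic 0) y := fun y hy => by
    rw [z' y hy]
    exact (hasDerivWithinAt_const y _ 0).congr z (z y hy)
  rcases lt_trichotomy x 0 with hx | rfl | hx
  · exact (n x hx.le).hasDerivAt (Iic_mem_nhds hx)
  · simpa using (n 0 le_rfl).union (p 0 le_rfl)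
  · exact (p x hx.le).hasDerivAt (Ici_mem_nhds hx)

lemma dΔ {f g : ℝ → ℝ} (h : ∀ x, HasDerivAt f (g x) x) (n : ℕ) (x : ℝ) : HasDerivAt (Δ n f) (Δ n g x) x := by
  induction n generalizing x with
  | zero => exact h x
  | succ n ih => exact (ih x).sub ((ih (x - 1)).comp_sub_const x 1)

lemma B.int {A β : ℝ} {f : ℝ → ℝ} (h : B A f) (hβ : 4 < β) :
    IntegrableOn (fun x => exp (-β * x) * f x) (Ioi 0) ∧
      ∫ x in Ioi 0, ‖exp (-β * x) * f x‖ ≤ A * ∫ x in Ioi 0, exp ((4 - β) * x) := by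
  have i := (integrableOn_exp_mul_Ioi (show 4 - β < 0 by linarith) 0).const_mul A
  have c := h.1
  have b : ∀ x, ‖exp (-β * x) * f x‖ ≤ A * exp ((4 - β) * x) := fun x => by
    rw [norm_mul, norm_of_nonneg (exp_pos _).le, show (4 - β) * x = -β * x + 4 * x by ring, exp_add,
      mul_left_comm]
    gcongr; exact h.2.2 x
  have j : IntegrableOn (fun x => exp (-β * x) * f x) (Ioi 0) := i.mono' (by fun_prop) (.of_forall b)
  exact ⟨j, by rw [← integral_const_mul]; exact integral_mono j.norm i b⟩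

lemma LΔ {A β : ℝ} {f : ℝ → ℝ} (h : B A f) (hβ : 4 < β) (n : ℕ) :
    ∫ x in Ioi 0, exp (-β * x) * Δ n f x = (1 - exp (-β)) ^ n * ∫ x in Ioi 0, exp (-β * x) * f x := by
  induction n with
  | zero => simp [Δ]
  | succ n ih =>
    have b := h.Δ n
    have z : ∀ x ∉ Ioi (0 : ℝ), exp (-β * x) * Δ n f x = 0 := fun x hx => by rw [b.2.1 x (le_of_not_gt hx), mul_zero]
    have z' : ∀ x ∉ Ioi (0 : ℝ), exp (-β * x) * Δ n f (x - 1) = 0 := fun x hx => by
      rw [b.2.1 _ (by linarith [le_of_not_gt (a := x) hx]), mul_zero]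
    have i : Integrable fun x => exp (-β * x) * Δ n f x :=
      (b.int hβ).1.integrable_of_forall_notMem_eq_zero z
    have e : ∀ x, exp (-β * x) * Δ n f (x - 1) = exp (-β) * (exp (-β * (x - 1)) * Δ n f (x - 1)) := fun x => by
      rw [← mul_assoc, ← exp_add]; congr 2; ring
    simp only [Δ, mul_sub]
    rw [integral_sub (b.int hβ).1, setIntegral_eq_integral_of_forall_compl_eq_zero z']
    · simp_rw [e]
      rw [integral_const_mul, integral_sub_right_eq_self (fun x => exp (-β * x) * Δ n f x) 1, ih,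
        ← setIntegral_eq_integral_of_forall_compl_eq_zero z, ih]
      ring
    · simp_rw [e]
      exact ((i.comp_sub_right 1).const_mul _).integrableOn

lemma LG {s β : ℝ} (h : 0 < s) (hβ : 0 < β) : ∫ x in Ioi 0, exp (-β * x) * G s x = β ^ (-s) := by
  have g := Gamma_pos_of_pos h
  rw [setIntegral_congr_fun measurableSet_Ioi (g := fun x => x ^ (s - 1) * exp (-(β * x)) / Gamma s)
    fun x hx => by simp only [G, max_eq_left (mem_Ioi.1 hx).le, neg_mul]; ring, integral_div,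
    integral_rpow_mul_exp_neg_mul_Ioi h hβ, mul_div_cancel_right₀ _ g.ne', one_div, inv_rpow hβ.le,
    rpow_neg hβ.le]

noncomputable def T (i : ℝ) (n : ℕ) : ℝ → ℝ := Δ n (G (7 / 4 * (n + 1) - i))

lemma BT {i : ℝ} {n : ℕ} (i2 : i ≤ 2) (h : 1 < 7 / 4 * (n + 1) - i) : B (8 * (1 / 2) ^ n) (T i n) := by
  have := (BG h).Δ n
  refine ⟨this.1, this.2.1, fun x => (this.2.2 x).trans ?_⟩
  gcongr ?_ * _
  have n0 : (0 : ℝ) ≤ n := n.cast_nonneg
  calc (2 : ℝ) ^ n * 4 ^ (1 - (7 / 4 * (n + 1) - i)) ≤ 2 ^ n * 4 ^ (3 / 2 - n : ℝ) := by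
        exact mul_le_mul_of_nonneg_left (rpow_le_rpow_of_exponent_le (by norm_num) (by linarith)) (by positivity)
    _ = 8 * (1 / 2) ^ n := by
        rw [rpow_sub (by norm_num), rpow_natCast, show (4 : ℝ) = 2 ^ (2 : ℝ) by norm_num,
          ← rpow_mul (by norm_num)]
        norm_num
        rw [show (4 : ℝ) = 2 * 2 by norm_num, mul_pow, one_div, inv_pow]; field_simp

lemma sm (c : ℝ) : Summable fun n : ℕ => 8 * (1 / 2 : ℝ) ^ n * c :=
  (summable_geometric_two.mul_left 8).mul_right c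

lemma BS {f : ℕ → ℝ → ℝ} (h : ∀ n, B (8 * (1 / 2) ^ n) (f n)) : B 16 fun x => ∑' n, f n x := by
  refine ⟨continuous_iff_continuousAt.2 fun x => (continuousOn_tsum (s := Iio (x + 1))
    (fun n => (h n).1.continuousOn) (sm (exp (4 * (x + 1)))) fun n y hy => ((h n).2.2 y).trans ?_).continuousAt
    (Iio_mem_nhds (lt_add_one x)), fun x hx => by simp [fun n => (h n).2.1 x hx], fun x => ?_⟩
  · gcongr; exact le_of_lt hy
  · refine (tsum_of_norm_bounded (f := fun n => f n x) (sm (exp (4 * x))).hasSum fun n => (h n).2.2 x).trans_eq ?_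
    rw [tsum_mul_right, tsum_mul_left, tsum_geometric_two]; norm_num

lemma dS {f g : ℕ → ℝ → ℝ} (h : ∀ n, B (8 * (1 / 2) ^ n) (f n)) (k : ∀ n, B (8 * (1 / 2) ^ n) (g n))
    (d : ∀ n x, HasDerivAt (f n) (g n x) x) (x : ℝ) : HasDerivAt (fun x => ∑' n, f n x) (∑' n, g n x) x :=
  hasDerivAt_tsum_of_isPreconnected (sm (exp (4 * (x + 1)))) isOpen_Iio isPreconnected_Iio
    (fun n y _ => d n y) (fun n y hy => ((k n).2.2 y).trans (by gcongr; exact le_of_lt hy)) (lt_add_one x)
    (.of_norm_bounded (sm _) fun n => (h n).2.2 x) (lt_add_one x)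

noncomputable def W (x : ℝ) : ℝ := ∑' n, T 0 n x

lemma BT0 (n : ℕ) : B (8 * (1 / 2) ^ n) (T 0 n) := BT (by norm_num) (by linarith [n.cast_nonneg (α := ℝ)])

lemma BW : B 16 W := BS BT0

lemma LW {β : ℝ} (hβ : 4 < β) :
    ∫ x in Ioi 0, exp (-β * x) * W x = 1 / (β ^ (7 / 4 : ℝ) + (exp (-β) - 1)) := by
  have β0 : 0 < β := by linarith
  have := hasSum_integral_of_summable_integral_norm (fun n => ((BT0 n).int hβ).1)
    (.of_nonneg_of_le (fun n => by positivity) (fun n => ((BT0 n).int hβ).2) (sm _))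
  simp_rw [tsum_mul_left] at this
  have e : ∀ n : ℕ, ∫ x in Ioi 0, exp (-β * x) * T 0 n x =
      (β ^ (7 / 4 : ℝ))⁻¹ * ((1 - exp (-β)) * (β ^ (7 / 4 : ℝ))⁻¹) ^ n := fun n => by
    have n0 : (0 : ℝ) ≤ n := n.cast_nonneg
    rw [T, LΔ (BG (by linarith)) hβ, LG (by linarith) β0, sub_zero, rpow_neg β0.le, rpow_mul β0.le,
      ← Nat.cast_succ, rpow_natCast, mul_pow, pow_succ, mul_inv, inv_pow]
    ring
  simp_rw [e] at this
  have b1 : 1 < β ^ (7 / 4 : ℝ) := one_lt_rpow (by linarith) (by norm_num)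
  have e0 := exp_pos (-β)
  have e1 : exp (-β) ≤ 1 := exp_le_one_iff.2 (by linarith)
  generalize β ^ (7 / 4 : ℝ) = b at *
  have := this.unique ((hasSum_geometric_of_lt_one (mul_nonneg (by linarith) (by positivity))
    (by rw [← div_eq_mul_inv, div_lt_one (by linarith)]; linarith)).mul_left b⁻¹)
  simp only [W]
  rw [this]
  have : b + (exp (-β) - 1) ≠ 0 := by linarith
  have : b - (1 - exp (-β)) ≠ 0 := by linarith
  field_simp
  ring

lemma CW : ContDiffOn ℝ 2 W (Ioi 0) := by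
  have b : ∀ i ≤ (2 : ℝ), ∀ n : ℕ, B (8 * (1 / 2) ^ n) (T i (n + 1)) := fun i hi n => by
    have := BT (n := n + 1) hi (by push_cast; linarith [n.cast_nonneg (α := ℝ)])
    refine ⟨this.1, this.2.1, fun x => (this.2.2 x).trans ?_⟩
    gcongr ?_ * _
    rw [pow_succ]; nlinarith [pow_pos (show (0 : ℝ) < 1 / 2 by norm_num) n]
  have d : ∀ i ≤ (1 : ℝ), ∀ x, HasDerivAt (fun x => ∑' n, T i (n + 1) x) (∑' n, T (i + 1) (n + 1) x) x :=
    fun i hi => dS (b i (by linarith)) (b _ (by linarith)) fun n => dΔ (fun x => by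
      rw [← sub_sub]; exact dG (by push_cast; linarith [n.cast_nonneg (α := ℝ)]) x) _
  have c : ContDiff ℝ 2 fun x => ∑' n, T 0 (n + 1) x := by
    rw [← one_add_one_eq_two, contDiff_succ_iff_deriv, contDiff_one_iff_deriv,
      show deriv _ = _ from funext fun x => (d 0 (by norm_num) x).deriv,
      show deriv _ = _ from funext fun x => (d (0 + 1) (by norm_num) x).deriv]
    exact ⟨fun x => (d 0 (by norm_num) x).differentiableAt, by simp,
      fun x => (d _ (by norm_num) x).differentiableAt, (BS (b _ (by norm_num))).1⟩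
  have g : ContDiffOn ℝ 2 (fun x : ℝ => x ^ (7 / 4 * ((0 : ℕ) + 1) - 0 - 1 : ℝ) / Gamma (7 / 4 * ((0 : ℕ) + 1) - 0))
      (Ioi 0) := (contDiffOn_id.rpow_const_of_ne fun x hx => ne_of_gt hx).div_const _
  refine (g.add c.contDiffOn).congr fun x hx => ?_
  rw [W, (Summable.of_norm_bounded (sm _) fun n => (BT0 n).2.2 x).tsum_eq_zero_add]
  simp only [T, Δ, G, max_eq_left (mem_Ioi.1 hx).le]

lemma itg {f : ℝ → ℝ} (m : Measurable f) {a : ℝ} (h1 : ∀ y, 0 < y → |f y| ≤ a * y ^ 2)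
    (h2 : ∀ y, 1 < y → |f y| ≤ a * y) : IntegrableOn (fun y => y ^ (-11 / 4 : ℝ) * f y) (Ioi 0) := by
  rw [← Ioc_union_Ioi_eq_Ioi zero_le_one, integrableOn_union, integrableOn_Ioc_iff_integrableOn_Ioo]
  constructor
  · refine (((intervalIntegral.integrableOn_Ioo_rpow_iff (s := -11 / 4 + 2) one_pos).2
      (by norm_num)).const_mul a).mono' (Measurable.aestronglyMeasurable (by fun_prop))
      (ae_restrict_of_forall_mem measurableSet_Ioo fun y hy => ?_)
    have := hy.1
    rw [norm_mul, norm_of_nonneg (by positivity), rpow_add this, rpow_two, mul_left_comm]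
    gcongr; exact h1 y this
  · refine ((integrableOn_Ioi_rpow_of_lt (a := -11 / 4 + 1) (by norm_num) one_pos).const_mul a).mono'
      (Measurable.aestronglyMeasurable (by fun_prop))
      (ae_restrict_of_forall_mem measurableSet_Ioi fun y hy => ?_)
    have : 0 < y := one_pos.trans hy
    rw [norm_mul, norm_of_nonneg (by positivity), rpow_add this, rpow_one, mul_left_comm]
    gcongr; exact h2 y hy

lemma eb {u : ℝ} (h : 0 < u) : 0 < exp (-u) - 1 + u ∧ exp (-u) - 1 + u ≤ u ∧ exp (-u) - 1 + u ≤ u ^ 2 := by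
  refine ⟨by linarith [add_one_lt_exp (neg_ne_zero.2 h.ne')], by linarith [exp_le_one_iff.2 (neg_nonpos.2 h.le)], ?_⟩
  have : exp (-u) ≤ 1 - u + u ^ 2 := by
    rw [exp_neg, inv_le_comm₀ (exp_pos _) (by nlinarith), inv_eq_one_div, div_le_iff₀ (by nlinarith)]
    nlinarith [add_one_le_exp u, mul_le_mul_of_nonneg_right (add_one_le_exp u)
      (show 0 ≤ 1 - u + u ^ 2 by nlinarith), pow_pos h 3]
  linarith

lemma i1 {β : ℝ} (h : 0 < β) :
    IntegrableOn (fun y => y ^ (-11 / 4 : ℝ) * (exp (-(β * y)) - 1 + β * y)) (Ioi 0) :=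
  itg (a := β + β ^ 2) (by fun_prop) (fun y hy => by
    obtain ⟨a, -, c⟩ := eb (mul_pos h hy)
    rw [abs_of_pos a]; nlinarith [mul_pos h (pow_pos hy 2)]) fun y hy => by
    have : 0 < y := by linarith
    obtain ⟨a, b, -⟩ := eb (mul_pos h this)
    rw [abs_of_pos a]; nlinarith [mul_pos (pow_pos h 2) this]

lemma i2 : IntegrableOn (fun y : ℝ => y ^ (-11 / 4 : ℝ) * (if y < 1 then 0 else y)) (Ioi 0) :=
  itg (a := 1) (Measurable.ite measurableSet_Iio measurable_const measurable_id) (fun y hy => by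
    split_ifs with k
    · rw [abs_zero]; positivity
    · rw [abs_of_pos hy]; nlinarith) fun y hy => by
    rw [if_neg hy.not_gt, abs_of_pos (by linarith), one_mul]

noncomputable def κ : ℝ := ∫ y in Ioi (0 : ℝ), y ^ (-11 / 4 : ℝ) * (exp (-(1 * y)) - 1 + 1 * y)

lemma κ0 : 0 < κ := by
  have p : ∀ y ∈ Ioi (0 : ℝ), 0 < y ^ (-11 / 4 : ℝ) * (exp (-(1 * y)) - 1 + 1 * y) := fun y hy =>
    mul_pos (rpow_pos_of_pos hy _) (eb (mul_pos one_pos hy)).1
  refine (setIntegral_pos_iff_support_of_nonneg_ae (ae_restrict_of_forall_mem measurableSet_Ioi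
    fun y hy => (p y hy).le) (i1 one_pos)).2 ?_
  exact lt_of_lt_of_le (by simp) (measure_mono (s := Ioi 0) fun y hy => ⟨(p y hy).ne', hy⟩)

lemma sc {β : ℝ} (h : 0 < β) :
    ∫ y in Ioi (0 : ℝ), y ^ (-11 / 4 : ℝ) * (exp (-(β * y)) - 1 + β * y) = β ^ (7 / 4 : ℝ) * κ := by
  have := integral_comp_mul_left_Ioi (fun y => y ^ (-11 / 4 : ℝ) * (exp (-(1 * y)) - 1 + 1 * y)) 0 h
  rw [mul_zero, ← κ, smul_eq_mul, setIntegral_congr_fun measurableSet_Ioi
    (g := fun y => β ^ (-11 / 4 : ℝ) * (y ^ (-11 / 4 : ℝ) * (exp (-(β * y)) - 1 + β * y)))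
    fun y hy => by simp only [mul_rpow h.le (mem_Ioi.1 hy).le, one_mul, mul_assoc], integral_const_mul] at this
  rw [show (7 / 4 : ℝ) = -(-11 / 4) + -1 by norm_num, rpow_add h, rpow_neg h.le, rpow_neg_one, mul_assoc,
    ← this, ← mul_assoc, inv_mul_cancel₀ (by positivity), one_mul]

noncomputable def ν0 : Measure ℝ := ((volume.restrict (Ioi 0)).withDensity
  fun y => ENNReal.ofReal (κ⁻¹ * y ^ (-11 / 4 : ℝ))).map fun y => -y

noncomputable def ν : Measure ℝ := ν0 + Measure.dirac (-1)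

lemma lin {f : ℝ → ℝ≥0∞} (m : Measurable f) :
    ∫⁻ x, f x ∂ν0 = ∫⁻ y in Ioi 0, ENNReal.ofReal (κ⁻¹ * y ^ (-11 / 4 : ℝ)) * f (-y) := by
  rw [ν0, lintegral_map m measurable_neg, lintegral_withDensity_eq_lintegral_mul _ (by fun_prop) (by fun_prop)]
  rfl

lemma int0 {f : ℝ → ℝ} (m : Measurable f) (i : IntegrableOn (fun y => y ^ (-11 / 4 : ℝ) * f (-y)) (Ioi 0)) :
    Integrable f ν0 ∧ ∫ x, f x ∂ν0 = κ⁻¹ * ∫ y in Ioi 0, y ^ (-11 / 4 : ℝ) * f (-y) := by
  have k := κ0
  have e : ∀ᵐ y ∂volume.restrict (Ioi (0 : ℝ)), κ⁻¹ * (y ^ (-11 / 4 : ℝ) * f (-y)) =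
      (ENNReal.ofReal (κ⁻¹ * y ^ (-11 / 4 : ℝ))).toReal • f (-y) :=
    ae_restrict_of_forall_mem measurableSet_Ioi fun y hy => by
      have : 0 < y := hy
      rw [ENNReal.toReal_ofReal (by positivity), smul_eq_mul, mul_assoc]
  constructor
  · rw [ν0, integrable_map_measure m.aestronglyMeasurable measurable_neg.aemeasurable,
      integrable_withDensity_iff_integrable_smul' (by fun_prop) (by simp)]
    exact (i.const_mul _).congr e
  · rw [ν0, integral_map measurable_neg.aemeasurable m.aestronglyMeasurable,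
      integral_withDensity_eq_integral_toReal_smul (by fun_prop) (by simp), ← integral_const_mul]
    exact (integral_congr_ae e).symm

noncomputable def γ : ℝ := κ⁻¹ * ∫ y in Ioi (0 : ℝ), y ^ (-11 / 4 : ℝ) * (if y < 1 then 0 else y)

lemma psi {β : ℝ} (h : 0 < β) : γ * β + ∫ x, (exp (β * x) - 1 - (if -1 < x then β * x else 0)) ∂ν =
    β ^ (7 / 4 : ℝ) + (exp (-β) - 1) := by
  have k := κ0
  have m : Measurable fun x => exp (β * x) - 1 - (if -1 < x then β * x else 0) :=
    Measurable.sub (by fun_prop) (Measurable.ite measurableSet_Ioi (by fun_prop) measurable_const)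
  have e : ∀ y : ℝ, y ^ (-11 / 4 : ℝ) * (exp (β * -y) - 1 - (if -1 < -y then β * -y else 0)) =
      y ^ (-11 / 4 : ℝ) * (exp (-(β * y)) - 1 + β * y) - β * (y ^ (-11 / 4 : ℝ) * (if y < 1 then 0 else y)) := by
    intro y
    simp only [neg_lt_neg_iff, mul_neg]
    split_ifs <;> ring
  obtain ⟨a, b⟩ := int0 m (by simp_rw [e]; exact (i1 h).sub (i2.const_mul _))
  rw [ν, integral_add_measure a (integrable_dirac (by simp)), integral_dirac, b]
  simp_rw [e]
  rw [integral_sub (i1 h) (i2.const_mul _), sc h, integral_const_mul, γ]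
  simp only [lt_self_iff_false, if_false, mul_neg, mul_one]
  field_simp
  ring

lemma c1 : ν (Ici 0) = 0 := by
  rw [ν, Measure.add_apply, ν0, Measure.map_apply measurable_neg measurableSet_Ici,
    withDensity_absolutelyContinuous _ _ (by
      rw [Measure.restrict_apply (measurable_neg measurableSet_Ici)]
      exact measure_mono_null (t := ∅) (fun y hy => by have := hy.1; have := hy.2; simp at *; linarith) (by simp))]
  simp

lemma c2 : ∫⁻ x, ENNReal.ofReal (min 1 (x ^ 2)) ∂ν < ⊤ := by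
  have := (int0 (f := fun x => min 1 (x ^ 2)) (by fun_prop) (itg (a := 1) (by fun_prop) (fun y _ => by
    rw [abs_of_nonneg (by positivity), neg_sq, one_mul]; exact min_le_right _ _) fun y hy => by
    rw [abs_of_nonneg (by positivity), one_mul]; exact (min_le_left _ _).trans hy.le)).1
  rw [ν, lintegral_add_measure, lintegral_dirac]
  exact ENNReal.add_lt_top.2 ⟨this.lintegral_lt_top, by simp⟩

lemma c3 : ∫⁻ x in Ioo (-1 : ℝ) 0, ENNReal.ofReal |x| ∂ν = ⊤ := by
  have k := κ0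
  by_contra h
  have : ∫⁻ y in Ioo (0 : ℝ) 1, ENNReal.ofReal (κ⁻¹ * y ^ (-11 / 4 + 1 : ℝ)) ≤
      ∫⁻ x in Ioo (-1 : ℝ) 0, ENNReal.ofReal |x| ∂ν := by
    refine le_trans ?_ (lintegral_mono' (Measure.restrict_mono subset_rfl (Measure.le_add_right le_rfl)) le_rfl)
    rw [← lintegral_indicator (μ := ν0) measurableSet_Ioo, lin (Measurable.indicator (by fun_prop) measurableSet_Ioo)]
    refine le_trans (setLIntegral_mono' measurableSet_Ioo fun y hy => ?_) (lintegral_mono_set Ioo_subset_Ioi_self)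
    have := hy.1
    rw [indicator_of_mem (show -y ∈ Ioo (-1 : ℝ) 0 from ⟨by linarith [hy.2], by linarith⟩),
      ← ENNReal.ofReal_mul (by positivity), abs_neg, abs_of_pos this, rpow_add this, rpow_one, mul_assoc]
  have i : IntegrableOn (fun y : ℝ => κ⁻¹ * y ^ (-11 / 4 + 1 : ℝ)) (Ioo 0 1) :=
    ⟨Measurable.aestronglyMeasurable (by fun_prop), (hasFiniteIntegral_iff_ofReal
      (ae_restrict_of_forall_mem measurableSet_Ioo fun y hy => by have := hy.1; positivity)).2
      (this.trans_lt (lt_top_iff_ne_top.2 h))⟩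
  have := (intervalIntegral.integrableOn_Ioo_rpow_iff one_pos).1
    ((integrable_const_mul_iff (inv_ne_zero k.ne').isUnit _).1 i)
  norm_num at this

lemma c4 : ¬ ContinuousOn (fun y => (ν (Iio (-y))).toReal) (Ioi 0) := by
  intro h
  have f : ν (Iio (-(1 / 2))) ≠ ⊤ := by
    refine ne_top_of_le_ne_top (ENNReal.div_lt_top c2.ne (show ENNReal.ofReal (1 / 4) ≠ 0 by simp)).ne
      (le_trans (measure_mono fun x hx => ?_) (meas_ge_le_lintegral_div (by fun_prop) (by simp) (by simp)))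
    exact ENNReal.ofReal_le_ofReal (le_min (by norm_num) (by nlinarith [mem_Iio.1 hx]))
  have t := ((h 1 (by simp)).continuousAt (Ioi_mem_nhds one_pos)).tendsto.mono_left
    (nhdsWithin_le_nhds (s := Iio 1))
  have : (ν (Iio (-1))).toReal + 1 ≤ (ν (Iio (-1))).toReal := by
    refine ge_of_tendsto t ?_
    filter_upwards [Ioo_mem_nhdsLT (show (1 / 2 : ℝ) < 1 by norm_num)] with y hy
    have g : ν (Iio (-y)) ≠ ⊤ := ne_top_of_le_ne_top f (measure_mono (Iio_subset_Iio (by linarith [hy.1])))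
    rw [← ENNReal.toReal_one, ← ENNReal.toReal_add (ne_top_of_le_ne_top f (measure_mono
      (Iio_subset_Iio (by norm_num)))) (by simp)]
    refine ENNReal.toReal_mono g ?_
    simp only [ν, Measure.add_apply]
    rw [Measure.dirac_apply_of_mem (show (-1 : ℝ) ∈ Iio (-y) by simpa using hy.2), Measure.dirac_apply,
      indicator_of_notMem (by simp), add_zero]
    gcongr; exact hy.2.le
  linarith

end Pool.Agent.H.MP_0b691a_pr
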